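import Pool.Agent.N180.UD.Main

/-!
# The diffeomorphism problem for homeomorphic closed 4-manifolds is undecidable

The structure `FourManifolds` (file `Theory.lean`) lists the classical objects and theorems of the topology
of 4-manifolds which are used: Freedman's theorems for the K3 surface and for `E8 # -E8`, the theorem of
Mandelbaum and Moishezon, Wall's theorems on surgery on null-homotopic circles, the theorem of Rochlin,
the exact sequences of twisted spin bordism groups, the existence of triangulations and of algorithms
which compute them. These published theorems are **assumed** (they are the fields of the structure
`T`). Everything else is proved: there is no other hypothesis.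

**Theorem.** No algorithm decides whether two homeomorphic closed connected triangulated 4-manifolds are
diffeomorphic.

Here complexes, their realizations, homeomorphisms, piecewise linear homeomorphisms (graph a finite union
of convex hulls of finite sets), combinatorial manifolds and algorithms (partial recursive functions on
lists of lists of natural numbers) are the concrete objects; in dimension four PL homeomorphism of
triangulations is the same thing as diffeomorphism of the smooth manifolds.

**Proof.** Let `G` be a group with a finite presentation with unsolvable word problem (the Novikov-Boone
theorem, proved in Lean in the library). For a word `w` let `P_w` be the presentation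
`⟨G, s, t | [t, [w, s]]⟩`, with the label `1` on the last relator and the labels `0` on the others; let
`N_w` be the orientable 5-dimensional thickening of its presentation complex whose second
Stiefel-Whitney class is the class of the labels, `R = S^1 ×~ S^3` the non-orientable bundle,
and

  `A_w = R # ∂N_w # K3`,  `B_w = R # ∂N_w # 11 (S^2 × S^2)`.

(1) `A_w` and `B_w` are homeomorphic: topologically `K3 = 2 (-E8) # 3 (S^2 × S^2)` and
`E8 # -E8 = 8 (S^2 × S^2)`, and in a non-orientable manifold a summand `-E8` can be replaced by `E8`.

(2) If `w = 1` in `G` then the last relator is a consequence of the others, the attaching circle of its
2-handle is isotopic to a trivial circle, with the nontrivial framing, therefore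
`∂N_w = X # CP^2 # -CP^2`, and `A_w = R # X # 24 CP^2 = B_w`.

(3) If `w ≠ 1` in `G` then `[w, s]` has infinite order in `G * ℤ`, and there is a central extension of the
group `π` of `P_w` by `ℤ/2` which gives the labels (HNN extensions; in Lean this is the equivalence
`lifts_ext_iff`): the class of the labels comes from the classifying space of `π`. Consider the
4-manifolds with a map to `B (π) ∨ S^1` and a twisted spin structure. All such structures on
`R # ∂N_w` which are isomorphisms on fundamental groups extend to the thickening, their bordism class is
zero. So the classes on `B_w` are `0` and the classes on `A_w` are `[K3]`, which is not zero by the
exact sequences and the theorem of Rochlin: otherwise `[K3] = y` with `y = 2 v` for a spin manifold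
`v`, and `-16 = 2 · 16 k`. So `A_w` and `B_w` are not diffeomorphic.

An algorithm for the diffeomorphism problem would solve the word problem of `G`.
-/

set_option autoImplicit false

namespace Pool.Agent.Results.MP_d40431_gt.DiffeoUndecidable

open Pool.Agent.N180.UD

/-- **No algorithm decides whether homeomorphic closed 4-manifolds are diffeomorphic**, not even for
closed connected manifolds. The classical theorems are the fields of `T`. -/
theorem result (T : FourManifolds) :
    (¬ ∃ f : Cx × Cx →. Bool, Partrec f ∧ Solves IsClosedConnected f) ∧
      ¬ ∃ f : Cx × Cx →. Bool, Partrec f ∧ Solves IsManifold f :=
  ⟨undecidable T, fun ⟨f, hf, hs⟩ =>
    undecidable T ⟨f, hf, hs.mono fun _ hK => hK.isManifold⟩⟩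

end Pool.Agent.Results.MP_d40431_gt.DiffeoUndecidable
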