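import Pool.Agent.N180.UD.Hopf

/-!
# It is undecidable whether the universal cover of a closed 4-manifold is spin

Let `P` be a finite presentation whose relators `r` have labels `z (r)` in `ℤ/2`. There is a unique
orientable 5-dimensional handlebody `N (P)` with one 0-handle, a 1-handle for each generator and a
2-handle for each relator, such that the second Stiefel-Whitney class of `N (P)` is the class of the
cochain `z`: the attaching circles (in a 4-manifold) are determined by the relators up to isotopy, the
framing of a 2-handle is an element of `ℤ/2`. The closed orientable 4-manifold `∂N (P)` has the same
fundamental group, and it has a spin universal cover if and only if `z` vanishes on all elements of the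
second homotopy group of the presentation complex, that is (Hurewicz), on all 2-cycles of the Cayley
complex.

**Theorem** (no hypothesis). (1) For every finite presentation with labels: the labels come from a central
extension of the group by `ℤ/2` (that is, from its second cohomology group) if and only if all
2-cycles of the Cayley complex have an even sum of labels (a theorem of Hopf).

(2) There is a finite presentation of a group `G` such that for the words `w` the presentations `P_w = ⟨G, s, t | [t, [w, s]]⟩`, with the label `1` on the last relator and `0` on the others,
have the following properties.

* There is a 2-cycle of the Cayley complex of `P_w` with odd sum of labels if and only if `w = 1` in `G`.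
* So the labels come from a central extension of the group of `P_w` by `ℤ/2` if and only if `w ≠ 1`.
* No algorithm decides, for given `w`, which of the two cases holds.

So no algorithm decides whether the universal cover of the closed 4-manifold `∂N (P)` is spin.

**The question.** Let `R = S^1 ×~ S^3` and `X_w = R # ∂N (P_w)`. The 4-manifolds `X_w # K3` and
`X_w # 11 (S^2 × S^2)` are homeomorphic for all `w` (Freedman), and they are diffeomorphic if and only
if the universal cover of `∂N (P_w)` is not spin; this is the hand-in `DiffeoUndecidable`, where
the published theorems on 4-manifolds are hypotheses. The present theorem is the part of the negative
answer which does not depend on any hypothesis.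
-/

set_option autoImplicit false

namespace Pool.Agent.Results.MP_d40431_gt.SpinCoverUndecidable

open Pool.Agent.N180.UD

/-- **No algorithm decides whether a class in the second cohomology of a finite 2-complex vanishes on the
second homotopy group** (whether the universal cover of the closed 4-manifold given by the handle data
is spin). -/
theorem result :
    (∀ P : Pres, Lifts P ↔ ¬ OddSphere P) ∧
    (∃ (P : Pres) (W : ℕ → Wd),
      (∀ r ∈ P.2, r.2 = false) ∧ Computable (ext P) ∧ Computable W ∧
      (∀ w, OddSphere (ext P w) ↔ val P w = 1) ∧
      ¬ ComputablePred fun n => OddSphere (ext P (W n))) ∧
    ¬ ComputablePred OddSphere := by
  refine ⟨lifts_iff, ?_, not_computable_oddSphere⟩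
  obtain ⟨P, W, h1, h2, h3, h4, -, h5, -⟩ := spin_main
  exact ⟨P, W, h1, h2, h3, h4, h5⟩

end Pool.Agent.Results.MP_d40431_gt.SpinCoverUndecidable
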